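import Mathlib

/-!
Covering families of integer vectors and sets without three consecutive integers.

Let `F` be a family of integer vectors of length `q` in which every difference of two distinct
members has a coordinate equal to `1`.  If the values of the members in all coordinates but one
avoid three consecutive integers, then `F` obeys Sperner's bound; consequently a family with at
least `c 2 ^ q` members is spread, in all but boundedly many coordinates, over every set which meets
all triples of consecutive integers.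
-/

set_option autoImplicit false

namespace Pool.Agent.Lib.MP_f4ab27_co_NT

open Finset

/-- The vector `w` is `A`-covering: every `a ∈ A` occurs as a coordinate of `w`. -/
def IsCovering {q : ℕ} (A : Set ℤ) (w : Fin q → ℤ) : Prop := ∀ a ∈ A, ∃ j, w j = a

/-- The family `F` is `A`-covering: for any two distinct members `u`, `v` the difference `u - v`
is `A`-covering. -/
def IsCoveringFamily {q : ℕ} (A : Set ℤ) (F : Set (Fin q → ℤ)) : Prop :=
  ∀ u ∈ F, ∀ v ∈ F, u ≠ v → IsCovering A (u - v)

/-- `S` contains no three consecutive integers. -/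
def NoThree (S : Set ℤ) : Prop := ∀ n : ℤ, ¬ (n ∈ S ∧ n + 1 ∈ S ∧ n + 2 ∈ S)

/-- `T` meets every set of three consecutive integers. -/
def MeetsTriples (T : Set ℤ) : Prop := ∀ n : ℤ, n ∈ T ∨ n + 1 ∈ T ∨ n + 2 ∈ T

lemma not_odd_succ_iff {n : ℤ} (h : Odd (n + 1) ↔ Odd n) : False := by
  rw [Int.odd_iff, Int.odd_iff] at h
  omega

/-- A family with the one-sided covering property is finite: parities determine its members. -/
lemma finite_of_covering {q : ℕ} (F : Set (Fin q → ℤ))
    (hF : ∀ u ∈ F, ∀ v ∈ F, u ≠ v → ∃ j, u j - v j = 1) : F.Finite := by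
  classical
  refine Set.Finite.of_injOn (f := fun u : Fin q → ℤ => (univ.filter fun i => Odd (u i)))
    (t := Set.univ) (fun _ _ => Set.mem_univ _) ?_ Set.finite_univ
  intro u hu v hv huv
  by_contra hne
  obtain ⟨j, hj⟩ := hF u hu v hv hne
  have h1 : j ∈ (univ.filter fun i => Odd (u i)) ↔ j ∈ (univ.filter fun i => Odd (v i)) := by
    rw [show (univ.filter fun i => Odd (u i)) = (univ.filter fun i => Odd (v i)) from huv]
  simp only [mem_filter, mem_univ, true_and] at h1
  have h2 : u j = v j + 1 := by omega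
  rw [h2] at h1
  exact not_odd_succ_iff h1

/-- A family of sets without three members `a ⊂ b ⊂ c` has at most `C(n + 1, (n + 1) / 2)` members:
adjoining a new point to its minimal members gives an antichain. -/
lemma two_level {α : Type} [Fintype α] [DecidableEq α] (𝒢 : Finset (Finset α))
    (h : ∀ a ∈ 𝒢, ∀ b ∈ 𝒢, ∀ c ∈ 𝒢, a ⊂ b → b ⊂ c → False) :
    𝒢.card ≤ (Fintype.card α + 1).choose ((Fintype.card α + 1) / 2) := by
  classical
  set Φ : Finset α → Finset (Option α) := fun s =>
    if ∀ m ∈ 𝒢, m ⊆ s → m = s then insertNone s else s.map Function.Embedding.some with hΦ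
  have key : ∀ s ∈ 𝒢, ∀ t ∈ 𝒢, s ≠ t → ¬ (Φ s ⊆ Φ t) := by
    intro s hs t ht hst hsub
    by_cases h1 : ∀ m ∈ 𝒢, m ⊆ s → m = s
    · have e1 : Φ s = insertNone s := by simp only [hΦ]; rw [if_pos h1]
      by_cases h2 : ∀ m ∈ 𝒢, m ⊆ t → m = t
      · have e2 : Φ t = insertNone t := by simp only [hΦ]; rw [if_pos h2]
        rw [e1, e2] at hsub
        refine hst (h2 s hs ?_)
        intro x hx
        have := hsub (some_mem_insertNone.mpr hx)
        exact some_mem_insertNone.mp this
      · have e2 : Φ t = t.map Function.Embedding.some := by simp only [hΦ]; rw [if_neg h2]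
        rw [e1, e2] at hsub
        have := hsub (none_mem_insertNone (s := s))
        simp at this
    · have e1 : Φ s = s.map Function.Embedding.some := by simp only [hΦ]; rw [if_neg h1]
      have hst' : s ⊆ t := by
        intro x hx
        have h3 : some x ∈ Φ s := by
          rw [e1]
          exact mem_map.mpr ⟨x, hx, rfl⟩
        have h4 := hsub h3
        by_cases h2 : ∀ m ∈ 𝒢, m ⊆ t → m = t
        · have e2 : Φ t = insertNone t := by simp only [hΦ]; rw [if_pos h2]
          rw [e2] at h4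
          exact some_mem_insertNone.mp h4
        · have e2 : Φ t = t.map Function.Embedding.some := by simp only [hΦ]; rw [if_neg h2]
          rw [e2, mem_map] at h4
          obtain ⟨y, hy, hyx⟩ := h4
          have : y = x := Option.some_injective _ hyx
          rwa [← this]
      push Not at h1
      obtain ⟨m, hm, hms, hne⟩ := h1
      exact h m hm s hs t ht (hms.ssubset_of_ne hne) (hst'.ssubset_of_ne hst)
  have hinj : Set.InjOn Φ (𝒢 : Set (Finset α)) := by
    intro s hs t ht hst
    by_contra hne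
    exact key s hs t ht hne (le_of_eq hst)
  rw [← card_image_of_injOn hinj]
  have hanti : IsAntichain (· ⊆ ·) ((𝒢.image Φ : Finset (Finset (Option α))) :
      Set (Finset (Option α))) := by
    intro a ha b hb hab
    rw [mem_coe, mem_image] at ha hb
    obtain ⟨s, hs, rfl⟩ := ha
    obtain ⟨t, ht, rfl⟩ := hb
    exact key s hs t ht (fun h => hab (by rw [h]))
  have := hanti.sperner
  rwa [Fintype.card_option] at this

/-- The bound for the members whose values avoid three consecutive integers in the coordinates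
of `W`, where some coordinate `i₀` is not in `W`. -/
lemma card_le {q : ℕ} (G : Finset (Fin q → ℤ))
    (hG : ∀ u ∈ G, ∀ v ∈ G, u ≠ v → ∃ j, u j - v j = 1)
    (W : Finset (Fin q)) (hWq : W.card < q) (S : Fin q → Set ℤ) (hS : ∀ i ∈ W, NoThree (S i))
    (hGS : ∀ u ∈ G, ∀ i ∈ W, u i ∈ S i) :
    G.card ≤ 2 ^ (q - (W.card + 1)) * (W.card + 1).choose ((W.card + 1) / 2) := by
  classical
  obtain ⟨i₀, hi₀⟩ : ∃ i, i ∉ W := by
    by_contra hcon
    push Not at hcon
    have : (univ : Finset (Fin q)).card ≤ W.card := card_le_card fun i _ => hcon i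
    rw [card_univ, Fintype.card_fin] at this
    omega
  set par : (Fin q → ℤ) → Finset (Fin q) := fun u => (insert i₀ W)ᶜ.filter fun i => Odd (u i)
    with hpar
  set E : (Fin q → ℤ) → Finset W := fun u => univ.filter fun i : W => u i.1 - 1 ∈ S i.1 with hE
  -- if `E u ⊆ E v`, the coordinate `1` of `u - v` can only be the one at `i₀`
  have key : ∀ u ∈ G, ∀ v ∈ G, u ≠ v → par u = par v → E u ⊆ E v → u i₀ - v i₀ = 1 := by
    intro u hu v hv hne hp hsub
    obtain ⟨j, hj⟩ := hG u hu v hv hne
    have h2 : u j = v j + 1 := by omega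
    by_cases hjW : j ∈ W
    · exfalso
      have h3 : (⟨j, hjW⟩ : W) ∈ E u := by
        simp only [hE, mem_filter, mem_univ, true_and]
        rw [h2, add_sub_cancel_right]
        exact hGS v hv j hjW
      have h4 := hsub h3
      simp only [hE, mem_filter, mem_univ, true_and] at h4
      refine hS j hjW (v j - 1) ⟨h4, ?_, ?_⟩
      · rw [sub_add_cancel]
        exact hGS v hv j hjW
      · have h5 := hGS u hu j hjW
        rw [h2] at h5
        rw [show v j - 1 + 2 = v j + 1 by ring]
        exact h5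
    · by_cases hj0 : j = i₀
      · rw [← hj0]
        exact hj
      · exfalso
        have h1 : j ∈ par u ↔ j ∈ par v := by rw [hp]
        simp only [hpar, mem_filter, mem_compl, mem_insert, hj0, hjW, or_self, not_false_eq_true,
          true_and] at h1
        rw [h2] at h1
        exact not_odd_succ_iff h1
  have hmaps : ∀ u ∈ G, par u ∈ (insert i₀ W)ᶜ.powerset := by
    intro u _
    rw [mem_powerset]
    exact filter_subset _ _
  rw [card_eq_sum_card_fiberwise hmaps]
  have hfib : ∀ ρ ∈ (insert i₀ W)ᶜ.powerset, (G.filter fun u => par u = ρ).card ≤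
      (W.card + 1).choose ((W.card + 1) / 2) := by
    intro ρ _
    have hinj : Set.InjOn E (G.filter fun u => par u = ρ : Finset (Fin q → ℤ)) := by
      intro u hu v hv huv
      rw [mem_coe, mem_filter] at hu hv
      by_contra hne
      have h1 := key u hu.1 v hv.1 hne (hu.2.trans hv.2.symm) (le_of_eq huv)
      have h2 := key v hv.1 u hu.1 (Ne.symm hne) (hv.2.trans hu.2.symm) (le_of_eq huv.symm)
      omega
    rw [← card_image_of_injOn hinj]
    have := two_level ((G.filter fun u => par u = ρ).image E) ?_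
    · rwa [Fintype.card_coe] at this
    · intro a ha b hb c hc hab hbc
      rw [mem_image] at ha hb hc
      obtain ⟨x, hx, rfl⟩ := ha
      obtain ⟨y, hy, rfl⟩ := hb
      obtain ⟨z, hz, rfl⟩ := hc
      rw [mem_filter] at hx hy hz
      have h1 := key x hx.1 y hy.1 (fun h => hab.ne (by rw [h])) (hx.2.trans hy.2.symm) hab.subset
      have h2 := key y hy.1 z hz.1 (fun h => hbc.ne (by rw [h])) (hy.2.trans hz.2.symm) hbc.subset
      have h3 := key x hx.1 z hz.1 (fun h => (hab.trans hbc).ne (by rw [h]))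
        (hx.2.trans hz.2.symm) (hab.trans hbc).subset
      omega
  calc ∑ ρ ∈ (insert i₀ W)ᶜ.powerset, (G.filter fun u => par u = ρ).card
      ≤ ∑ _ρ ∈ (insert i₀ W)ᶜ.powerset, (W.card + 1).choose ((W.card + 1) / 2) :=
        sum_le_sum hfib
    _ = 2 ^ (q - (W.card + 1)) * (W.card + 1).choose ((W.card + 1) / 2) := by
        rw [sum_const, card_powerset, card_compl, Fintype.card_fin, card_insert_of_notMem hi₀,
          smul_eq_mul]

/-- `(2 n + 1) C(2 n, n) ^ 2 ≤ 16 ^ n`. -/
lemma central_sq_le (n : ℕ) : (2 * n + 1) * n.centralBinom ^ 2 ≤ 16 ^ n := by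
  induction n with
  | zero => simp
  | succ n ih =>
    have h := Nat.succ_mul_centralBinom_succ n
    have h2 : (n + 1) ^ 2 * ((2 * (n + 1) + 1) * (n + 1).centralBinom ^ 2) ≤
        (n + 1) ^ 2 * 16 ^ (n + 1) := by
      calc (n + 1) ^ 2 * ((2 * (n + 1) + 1) * (n + 1).centralBinom ^ 2)
          = (2 * n + 3) * ((n + 1) * (n + 1).centralBinom) ^ 2 := by ring
        _ = (2 * n + 3) * (2 * (2 * n + 1) * n.centralBinom) ^ 2 := by rw [h]
        _ = (4 * (2 * n + 3) * (2 * n + 1)) * ((2 * n + 1) * n.centralBinom ^ 2) := by ring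
        _ ≤ (4 * (2 * n + 3) * (2 * n + 1)) * 16 ^ n := Nat.mul_le_mul_left _ ih
        _ ≤ (16 * (n + 1) ^ 2) * 16 ^ n := by
            refine Nat.mul_le_mul_right _ ?_
            nlinarith
        _ = (n + 1) ^ 2 * 16 ^ (n + 1) := by ring
    exact Nat.le_of_mul_le_mul_left h2 (by positivity)

/-- Double counting over the sets `W` of size `w`: the members are weighted by the number of
`w`-sets of coordinates in which they take values in the sets `S i`. -/
lemma sum_choose_le {q : ℕ} (G : Finset (Fin q → ℤ))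
    (hG : ∀ u ∈ G, ∀ v ∈ G, u ≠ v → ∃ j, u j - v j = 1)
    (S : Fin q → Set ℤ) (hS : ∀ i, NoThree (S i)) (w : ℕ) (hwq : w < q) :
    ∑ u ∈ G, ({i | u i ∈ S i} : Set (Fin q)).ncard.choose w ≤
      2 ^ (q - (w + 1)) * (w + 1).choose ((w + 1) / 2) * q.choose w := by
  classical
  have h1 : ∀ u ∈ G, ({i | u i ∈ S i} : Set (Fin q)).ncard.choose w =
      ∑ W ∈ powersetCard w (univ : Finset (Fin q)), if ∀ i ∈ W, u i ∈ S i then 1 else 0 := by
    intro u _
    have h2 : ({i | u i ∈ S i} : Set (Fin q)).ncard = (univ.filter fun i => u i ∈ S i).card := by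
      rw [← Set.ncard_coe_finset]
      congr 1
      ext i
      simp
    rw [h2, ← card_powersetCard, sum_boole, Nat.cast_id]
    congr 1
    ext W
    simp only [mem_powersetCard, mem_filter, subset_univ, true_and]
    constructor
    · rintro ⟨h3, h4⟩
      exact ⟨h4, fun i hi => (mem_filter.mp (h3 hi)).2⟩
    · rintro ⟨h3, h4⟩
      exact ⟨fun i hi => mem_filter.mpr ⟨mem_univ _, h4 i hi⟩, h3⟩
  rw [sum_congr rfl h1, sum_comm]
  have h3 : ∀ W ∈ powersetCard w (univ : Finset (Fin q)),
      ∑ u ∈ G, (if ∀ i ∈ W, u i ∈ S i then 1 else 0) ≤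
        2 ^ (q - (w + 1)) * (w + 1).choose ((w + 1) / 2) := by
    intro W hW
    rw [mem_powersetCard] at hW
    rw [sum_boole, Nat.cast_id]
    have := card_le (G.filter fun u => ∀ i ∈ W, u i ∈ S i)
      (fun u hu v hv => hG u (mem_filter.mp hu).1 v (mem_filter.mp hv).1) W (by omega) S
      (fun i _ => hS i) (fun u hu => (mem_filter.mp hu).2)
    rw [hW.2] at this
    exact this
  calc ∑ W ∈ powersetCard w (univ : Finset (Fin q)),
        ∑ u ∈ G, (if ∀ i ∈ W, u i ∈ S i then 1 else 0)
      ≤ ∑ _W ∈ powersetCard w (univ : Finset (Fin q)),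
          2 ^ (q - (w + 1)) * (w + 1).choose ((w + 1) / 2) := sum_le_sum h3
    _ = 2 ^ (q - (w + 1)) * (w + 1).choose ((w + 1) / 2) * q.choose w := by
        rw [sum_const, card_powersetCard, card_univ, Fintype.card_fin, smul_eq_mul, mul_comm]

/-- The normalised middle binomial coefficient `C(2 n, n) / 4 ^ n` is at most `1 / √(2 n + 1)`;
here in the form `c ^ 2 (2 n + 1) ≥ 4 → 2 C(2 n, n) ≤ c 4 ^ n`. -/
lemma two_centralBinom_le (c : ℝ) (n : ℕ) (hc : 0 < c) (h : 4 ≤ c ^ 2 * (2 * n + 1)) :
    2 * (n.centralBinom : ℝ) ≤ c * 4 ^ n := by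
  have h1 : ((2 * n + 1 : ℕ) : ℝ) * (n.centralBinom : ℝ) ^ 2 ≤ 16 ^ n := by
    exact_mod_cast central_sq_le n
  push_cast at h1
  have h3 : (2 * (n.centralBinom : ℝ)) ^ 2 ≤ (c * 4 ^ n) ^ 2 := by
    calc (2 * (n.centralBinom : ℝ)) ^ 2 = 4 * (n.centralBinom : ℝ) ^ 2 := by ring
      _ ≤ c ^ 2 * (2 * n + 1) * (n.centralBinom : ℝ) ^ 2 :=
          mul_le_mul_of_nonneg_right h (by positivity)
      _ = c ^ 2 * ((2 * n + 1) * (n.centralBinom : ℝ) ^ 2) := by ring
      _ ≤ c ^ 2 * 16 ^ n := mul_le_mul_of_nonneg_left h1 (by positivity)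
      _ = (c * 4 ^ n) ^ 2 := by
          rw [mul_pow, ← pow_mul, mul_comm n 2, pow_mul]
          norm_num
  exact le_of_sq_le_sq h3 (by positivity)

/-- Spread: in all but fewer than `w` coordinates every set meeting all triples of consecutive
integers contains a proportion `1 / (2 w)` of the values. -/
lemma spread {q : ℕ} (F : Set (Fin q → ℤ))
    (hF : ∀ u ∈ F, ∀ v ∈ F, u ≠ v → ∃ j, u j - v j = 1)
    (c : ℝ) (w : ℕ) (hc : 0 < c) (hw : Odd w) (hwq : w < q) (hcw : 4 ≤ c ^ 2 * (w + 2))
    (hFc : c * 2 ^ q ≤ F.ncard) :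
    ∃ B : Finset (Fin q), B.card < w ∧ ∀ i ∉ B, ∀ T : Set ℤ, MeetsTriples T →
      (F.ncard : ℝ) ≤ 2 * w * {u | u ∈ F ∧ u i ∈ T}.ncard := by
  classical
  have hfin := finite_of_covering F hF
  have hw0 : 0 < w := hw.pos
  by_contra hcon
  push Not at hcon
  set B : Finset (Fin q) := univ.filter fun i => ∃ T : Set ℤ, MeetsTriples T ∧
    2 * (w : ℝ) * {u | u ∈ F ∧ u i ∈ T}.ncard < F.ncard with hB
  have hBw : w ≤ B.card := by
    by_contra hlt
    obtain ⟨i, hi, T, hT, hlt'⟩ := hcon B (by omega)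
    exact hi (by rw [hB, mem_filter]; exact ⟨mem_univ _, T, hT, hlt'⟩)
  obtain ⟨W, hWB, hWc⟩ := exists_subset_card_eq hBw
  have hT : ∀ i ∈ W, ∃ T : Set ℤ, MeetsTriples T ∧
      2 * (w : ℝ) * {u | u ∈ F ∧ u i ∈ T}.ncard < F.ncard := by
    intro i hi
    have := hWB hi
    rw [hB, mem_filter] at this
    exact this.2
  choose! T hT1 hT2 using hT
  set P := hfin.toFinset with hP
  have hPF : (P.card : ℝ) = F.ncard := by
    rw [hP, Set.ncard_eq_toFinset_card F hfin]
  -- the members avoiding all `T i`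
  set G := P.filter fun u => ∀ i ∈ W, u i ∉ T i with hG
  have hGcard : G.card ≤ 2 ^ (q - (W.card + 1)) * (W.card + 1).choose ((W.card + 1) / 2) := by
    refine card_le G ?_ W (by omega) (fun i => (T i)ᶜ) ?_ ?_
    · intro u hu v hv hne
      rw [hG, mem_filter, hP, Set.Finite.mem_toFinset] at hu hv
      exact hF u hu.1 v hv.1 hne
    · intro i hi n hn
      rcases hT1 i hi n with h | h | h
      · exact hn.1 h
      · exact hn.2.1 h
      · exact hn.2.2 h
    · intro u hu i hi
      rw [hG, mem_filter] at hu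
      exact hu.2 i hi
  -- the others are covered by the exceptional sets
  have hcover : P ⊆ G ∪ W.biUnion fun i => P.filter fun u => u i ∈ T i := by
    intro u hu
    rw [mem_union]
    by_cases h : ∀ i ∈ W, u i ∉ T i
    · left
      rw [hG, mem_filter]
      exact ⟨hu, h⟩
    · right
      push Not at h
      obtain ⟨i, hi, hi'⟩ := h
      rw [mem_biUnion]
      exact ⟨i, hi, mem_filter.mpr ⟨hu, hi'⟩⟩
  have hsum : (P.card : ℝ) ≤ G.card + ∑ i ∈ W, ((P.filter fun u => u i ∈ T i).card : ℝ) := by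
    have h1 := (card_le_card hcover).trans (card_union_le _ _)
    have h2 : (W.biUnion fun i => P.filter fun u => u i ∈ T i).card ≤
        ∑ i ∈ W, (P.filter fun u => u i ∈ T i).card := card_biUnion_le
    have h3 : P.card ≤ G.card + ∑ i ∈ W, (P.filter fun u => u i ∈ T i).card := by omega
    exact_mod_cast h3
  have hwR : (0 : ℝ) < w := by exact_mod_cast hw0
  have heach : ∀ i ∈ W, ((P.filter fun u => u i ∈ T i).card : ℝ) < F.ncard / (2 * w) := by
    intro i hi
    have h1 : {u | u ∈ F ∧ u i ∈ T i}.ncard = (P.filter fun u => u i ∈ T i).card := by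
      rw [← Set.ncard_coe_finset]
      congr 1
      ext u
      simp [hP]
    have h2 := hT2 i hi
    rw [h1] at h2
    rw [lt_div_iff₀ (by positivity)]
    linarith
  have hWne : W.Nonempty := by
    rw [← card_pos, hWc]
    exact hw0
  have hsum2 : ∑ i ∈ W, ((P.filter fun u => u i ∈ T i).card : ℝ) < F.ncard / 2 := by
    calc ∑ i ∈ W, ((P.filter fun u => u i ∈ T i).card : ℝ)
        < ∑ _i ∈ W, (F.ncard : ℝ) / (2 * w) := sum_lt_sum_of_nonempty hWne heach
      _ = F.ncard / 2 := by
          rw [sum_const, hWc, nsmul_eq_mul]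
          field_simp
  obtain ⟨n, hn⟩ : ∃ n, w + 1 = 2 * n := by
    obtain ⟨n, hn⟩ := hw
    exact ⟨n + 1, by omega⟩
  have hG2 : (G.card : ℝ) ≤ F.ncard / 2 := by
    have h1 : (G.card : ℝ) ≤ 2 ^ (q - 2 * n) * (n.centralBinom : ℝ) := by
      rw [hWc, hn, show 2 * n / 2 = n by omega] at hGcard
      rw [Nat.centralBinom_eq_two_mul_choose]
      exact_mod_cast hGcard
    have h2 : 2 * (n.centralBinom : ℝ) ≤ c * 4 ^ n := by
      refine two_centralBinom_le c n hc ?_
      have h5 : ((2 * n + 1 : ℕ) : ℝ) = ((w + 2 : ℕ) : ℝ) := by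
        congr 1
        omega
      push_cast at h5
      rw [h5]
      exact hcw
    have h3 : (2 : ℝ) ^ (q - 2 * n) * 4 ^ n = 2 ^ q := by
      rw [show (4 : ℝ) ^ n = 2 ^ (2 * n) by rw [pow_mul]; norm_num, ← pow_add]
      congr 1
      omega
    have h4 : 2 * (G.card : ℝ) ≤ c * 2 ^ q := by
      calc 2 * (G.card : ℝ) ≤ 2 ^ (q - 2 * n) * (2 * (n.centralBinom : ℝ)) := by linarith
        _ ≤ 2 ^ (q - 2 * n) * (c * 4 ^ n) := mul_le_mul_of_nonneg_left h2 (by positivity)
        _ = c * (2 ^ (q - 2 * n) * 4 ^ n) := by ring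
        _ = c * 2 ^ q := by rw [h3]
    linarith
  linarith

/-- Families of integer vectors with the covering property: the exact bound for values without
three consecutive integers, its weighted form, and the spread of dense families. -/
theorem main (q : ℕ) (A : Set ℤ) (hA : (1 : ℤ) ∈ A) (F : Set (Fin q → ℤ))
    (hF : IsCoveringFamily A F) :
    F.Finite ∧
    (∀ (W : Finset (Fin q)) (S : Fin q → Set ℤ), W.card < q → (∀ i ∈ W, NoThree (S i)) →
      {u | u ∈ F ∧ ∀ i ∈ W, u i ∈ S i}.ncard ≤
        2 ^ (q - (W.card + 1)) * (W.card + 1).choose ((W.card + 1) / 2)) ∧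
    (∀ (S : Fin q → Set ℤ) (w : ℕ), w < q → (∀ i, NoThree (S i)) →
      ∑ᶠ u ∈ F, ({i | u i ∈ S i} : Set (Fin q)).ncard.choose w ≤
        2 ^ (q - (w + 1)) * (w + 1).choose ((w + 1) / 2) * q.choose w) ∧
    (∀ (c : ℝ) (w : ℕ), 0 < c → Odd w → w < q → 4 ≤ c ^ 2 * (w + 2) →
      c * 2 ^ q ≤ F.ncard →
      ∃ B : Finset (Fin q), B.card < w ∧ ∀ i ∉ B, ∀ T : Set ℤ, MeetsTriples T →
        (F.ncard : ℝ) ≤ 2 * w * {u | u ∈ F ∧ u i ∈ T}.ncard) := by
  classical
  have hF1 : ∀ u ∈ F, ∀ v ∈ F, u ≠ v → ∃ j, u j - v j = 1 := by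
    intro u hu v hv hne
    obtain ⟨j, hj⟩ := hF u hu v hv hne 1 hA
    exact ⟨j, hj⟩
  have hfin := finite_of_covering F hF1
  refine ⟨hfin, ?_, ?_, ?_⟩
  · intro W S hWq hS
    have hfin2 : {u | u ∈ F ∧ ∀ i ∈ W, u i ∈ S i}.Finite := hfin.subset fun u hu => hu.1
    rw [Set.ncard_eq_toFinset_card _ hfin2]
    refine card_le _ ?_ W hWq S hS ?_
    · intro u hu v hv hne
      rw [Set.Finite.mem_toFinset] at hu hv
      exact hF1 u hu.1 v hv.1 hne
    · intro u hu
      rw [Set.Finite.mem_toFinset] at hu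
      exact hu.2
  · intro S w hwq hS
    rw [finsum_mem_eq_finite_toFinset_sum _ hfin]
    refine sum_choose_le _ ?_ S hS w hwq
    intro u hu v hv hne
    rw [Set.Finite.mem_toFinset] at hu hv
    exact hF1 u hu v hv hne
  · intro c w hc hw hwq hcw hFc
    exact spread F hF1 c w hc hw hwq hcw hFc

end Pool.Agent.Lib.MP_f4ab27_co_NT
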